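import Pool.Agent.helper83.OD.Spec

set_option autoImplicit false

open Finset PowerSeries

noncomputable section

namespace Pool.Agent.OD

open Pool.Agent.EP

theorem EXO_lt (y u : ℕ) (h : u ^ 2 < y) : u < Nat.sqrt y + 1 := by
  have h1 : u ≤ Nat.sqrt y := by
    rw [Nat.le_sqrt']
    exact h.le
  omega

/-- EXO -/
theorem EXO : EXO_stmt := by
  classical
  intro y
  set s : ℕ := Nat.sqrt y with hs
  let A : Finset (ℕ × ℕ) := (P5 y ×ˢ range (2 * (s + 1))).image
    fun x => (16 * x.2 ^ 2 - 7 * x.1, x.1)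
  let B : Finset (ℕ × ℕ) := (P5 y ×ˢ (range (s + 1) ×ˢ range 14)).image
    fun x => (16 * x.2.1 ^ 2 + x.1 * x.2.2, x.1)
  let C : Finset (ℕ × ℕ) := (P5 y ×ˢ range (s + 1)).image
    fun x => (7 * x.1 - 16 * x.2 ^ 2, x.1)
  have hsub : Ex y ⊆ A ∪ (B ∪ C) := by
    rintro ⟨M, p⟩ hx
    unfold Ex at hx
    rw [mem_filter, mem_product] at hx
    dsimp only at hx
    obtain ⟨⟨hM, hp⟩, hx⟩ := hx
    have hM' := hM
    have hp' := hp
    unfold P5 at hM' hp'
    rw [mem_filter, mem_Ioc] at hM' hp'
    obtain ⟨⟨hM1, hM2⟩, -, -⟩ := hM'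
    obtain ⟨⟨hp1, hp2⟩, -, -⟩ := hp'
    rw [mem_union, mem_union]
    rcases hx with ⟨u, hu⟩ | ⟨u, hu, k, hk⟩ | ⟨u, hu, k, hk⟩
    · left
      refine mem_image.mpr ⟨(p, u), mem_product.mpr ⟨hp, ?_⟩, ?_⟩
      · rw [mem_range]
        dsimp only
        have h1 : 16 * u ^ 2 ≤ 28 * y := by omega
        have h2 : y < (s + 1) ^ 2 := Nat.lt_succ_sqrt' y
        by_contra h3
        push Not at h3
        have h4 : (2 * (s + 1)) ^ 2 ≤ u ^ 2 := Nat.pow_le_pow_left h3 2
        have h5 : (2 * (s + 1)) ^ 2 = 4 * (s + 1) ^ 2 := by ring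
        omega
      · dsimp only
        rw [Prod.mk.injEq]
        exact ⟨by omega, rfl⟩
    · right
      left
      refine mem_image.mpr ⟨(p, (u, k)), mem_product.mpr ⟨hp, mem_product.mpr ⟨?_, ?_⟩⟩, ?_⟩
      · rw [mem_range]
        dsimp only
        rw [hs]
        apply EXO_lt
        omega
      · rw [mem_range]
        dsimp only
        by_contra h3
        push Not at h3
        have h4 : p * 14 ≤ p * k := Nat.mul_le_mul_left p h3
        omega
      · dsimp only
        rw [Prod.mk.injEq]
        exact ⟨by omega, rfl⟩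
    · right
      right
      refine mem_image.mpr ⟨(p, u), mem_product.mpr ⟨hp, ?_⟩, ?_⟩
      · rw [mem_range]
        dsimp only
        rw [hs]
        apply EXO_lt
        omega
      · dsimp only
        rw [Prod.mk.injEq]
        refine ⟨?_, rfl⟩
        have hk1 : k = 1 := by
          rcases Nat.lt_or_ge k 1 with h | h
          · have h0 : k = 0 := by omega
            subst h0
            omega
          · rcases Nat.lt_or_ge k 2 with h' | h'
            · omega
            · have h4 : M * 2 ≤ M * k := Nat.mul_le_mul_left M h'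
              omega
        subst hk1
        omega
  have hA : #A ≤ #(P5 y) * (2 * (s + 1)) := by
    refine le_trans card_image_le ?_
    rw [card_product, card_range]
  have hB : #B ≤ #(P5 y) * ((s + 1) * 14) := by
    refine le_trans card_image_le ?_
    rw [card_product, card_product, card_range, card_range]
  have hC : #C ≤ #(P5 y) * (s + 1) := by
    refine le_trans card_image_le ?_
    rw [card_product, card_range]
  calc #(Ex y) ≤ #(A ∪ (B ∪ C)) := card_le_card hsub
    _ ≤ #A + (#B + #C) :=
      (card_union_le _ _).trans (Nat.add_le_add_left (card_union_le _ _) _)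
    _ ≤ #(P5 y) * (2 * (s + 1)) + (#(P5 y) * ((s + 1) * 14) + #(P5 y) * (s + 1)) :=
      Nat.add_le_add hA (Nat.add_le_add hB hC)
    _ = 17 * (s + 1) * #(P5 y) := by ring

end Pool.Agent.OD
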