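import Pool.Agent.helper21.OD.SpecA

/-! Project OD (MP_2e0e07_nt), row ACH: `act` preserves `BiHom k`. -/

set_option autoImplicit false

namespace Pool.Agent.OD

open MvPolynomial Matrix

private theorem ACH_gen {A : Type} [CommRing A] (w : Fin 4 → ℕ) (v : Fin 4 → MvPolynomial (Fin 4) A)
    (hv : ∀ i, IsWeightedHomogeneous w (v i) (w i)) (k : ℕ) (P : MvPolynomial (Fin 4) A)
    (hP : IsWeightedHomogeneous w P k) : IsWeightedHomogeneous w (aeval v P) k := by
  have h1 : aeval v P = ∑ d ∈ P.support, aeval v (monomial d (coeff d P)) := by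
    rw [← map_sum, ← P.as_sum]
  rw [h1]
  refine IsWeightedHomogeneous.sum _ _ _ (fun d hd => ?_)
  rw [aeval_monomial]
  have h2 : Finsupp.weight w d = k := hP (by rwa [mem_support_iff] at hd)
  have h3 : IsWeightedHomogeneous w (∏ i ∈ d.support, v i ^ d i) (∑ i ∈ d.support, d i • w i) :=
    IsWeightedHomogeneous.prod _ _ _ (fun i _ => (hv i).pow (d i))
  have h4 := (isWeightedHomogeneous_C w (coeff d P)).mul h3
  rw [zero_add] at h4
  have h5 : (∑ i ∈ d.support, d i • w i) = k := by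
    rw [← h2, Finsupp.weight_apply]
    rfl
  rw [h5] at h4
  exact h4

private theorem ACH_lin {A : Type} [CommRing A] (w : Fin 4 → ℕ) (a b : A) (i j : Fin 4) (n : ℕ)
    (hi : w i = n) (hj : w j = n) :
    IsWeightedHomogeneous w (C a * X i + C b * X j : MvPolynomial (Fin 4) A) n := by
  refine IsWeightedHomogeneous.add ?_ ?_
  · exact (hi ▸ isWeightedHomogeneous_X A w i : IsWeightedHomogeneous w (X i : MvPolynomial (Fin 4) A) n).C_mul a
  · exact (hj ▸ isWeightedHomogeneous_X A w j : IsWeightedHomogeneous w (X j : MvPolynomial (Fin 4) A) n).C_mul b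

theorem ACH : ACH_stmt := by
  intro t A _ f g k P hP
  refine ⟨ACH_gen _ _ ?_ k P hP.1, ACH_gen _ _ ?_ k P hP.2⟩
  · intro i
    fin_cases i
    · exact ACH_lin _ _ _ 0 1 1 rfl rfl
    · exact ACH_lin _ _ _ 0 1 1 rfl rfl
    · exact ACH_lin _ _ _ 2 3 0 rfl rfl
    · exact ACH_lin _ _ _ 2 3 0 rfl rfl
  · intro i
    fin_cases i
    · exact ACH_lin _ _ _ 0 1 0 rfl rfl
    · exact ACH_lin _ _ _ 0 1 0 rfl rfl
    · exact ACH_lin _ _ _ 2 3 1 rfl rfl
    · exact ACH_lin _ _ _ 2 3 1 rfl rfl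

end Pool.Agent.OD
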